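import Pool.Agent.helper54.UG.Spec

/-!
# Row PRM (MP_a2a22c_al): the orbit of the first basis vector is Zariski dense
-/

set_option autoImplicit false

namespace Pool.Agent.UG

open Matrix Pool.Agent.H48SL

/-- The vectors `(1 + s y_1, y)` are in the orbit of the first basis vector. -/
theorem PRM_orbit (n : ℕ) (s : ℤ) (x : Fin (n + 2) → ℤ) :
    ∃ h : SLZ (n + 2), qg h *ᵥ e0 (n + 1) =
      castV (fun i => if i = 0 then 1 + s * x 1 else x i) := by
  have h01 : (0 : Fin (n + 2)) ≠ 1 := by
    intro h
    have := congrArg Fin.val h
    simp at this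
  set w : Fin (n + 2) → ℤ := fun i => if i = 0 then 0 else x i with hw
  have hφ : (Pi.single 0 1 : Fin (n + 2) → ℤ) ⬝ᵥ w = 0 := by
    rw [single_one_dotProduct, hw]
    simp
  have hψ : (Pi.single 1 1 : Fin (n + 2) → ℤ) ⬝ᵥ (s • Pi.single 0 1 : Fin (n + 2) → ℤ) = 0 := by
    rw [single_one_dotProduct]
    simp [h01.symm]
  refine ⟨tv (s • Pi.single 0 1) (Pi.single 1 1) * tv w (Pi.single 0 1), ?_⟩
  have he : e0 (n + 1) = castV (Pi.single 0 1 : Fin (n + 2) → ℤ) := by
    rw [castV_single]
    rfl
  rw [he, qg_mul, ← mulVec_mulVec, qg_mulVec_castV, tv_mulVec hφ, qg_mulVec_castV,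
    tv_mulVec hψ]
  congr 1
  ext i
  rw [single_one_dotProduct, single_one_dotProduct]
  by_cases hi : i = 0
  · subst hi
    simp [hw, h01.symm]
    ring
  · simp [hw, hi, h01.symm]

theorem PRM : PRM_stmt := by
  intro n P hP
  by_contra hcon
  push Not at hcon
  have h01 : (1 : Fin (n + 2)) ≠ 0 := by
    intro h
    have := congrArg Fin.val h
    simp at this
  apply hP
  have hX : (MvPolynomial.X 1 : MvPolynomial (Fin (n + 2)) ℚ) * P = 0 := by
    apply MvPolynomial.funext_set (fun _ => Set.range ((↑) : ℤ → ℚ))
    · intro i
      exact Set.infinite_range_of_injective Int.cast_injective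
    · intro y hy
      choose x hx using fun i => hy i (Set.mem_univ i)
      rw [map_mul, map_zero, MvPolynomial.eval_X]
      by_cases h1 : x 1 = 0
      · rw [← hx 1, h1, Int.cast_zero, zero_mul]
      · have hp : (MvPolynomial.aeval (fun i : Fin (n + 2) =>
            if i = 0 then (Polynomial.X : Polynomial ℚ) else Polynomial.C (y i))) P = 0 := by
          apply Polynomial.eq_zero_of_infinite_isRoot
          have hinf : (Set.range fun s : ℤ => ((1 + s * x 1 : ℤ) : ℚ)).Infinite := by
            apply Set.infinite_range_of_injective
            intro s t hst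
            have h2 : 1 + s * x 1 = 1 + t * x 1 := Int.cast_injective (α := ℚ) hst
            exact mul_right_cancel₀ h1 (by linarith)
          refine hinf.mono ?_
          rintro _ ⟨s, rfl⟩
          obtain ⟨h, hh⟩ := PRM_orbit n s x
          have h2 := hcon h
          rw [hh] at h2
          show Polynomial.eval _ _ = 0
          rw [← Polynomial.coe_evalRingHom, ← h2, MvPolynomial.aeval_def, MvPolynomial.eval₂_eq',
            map_sum, MvPolynomial.eval_eq']
          refine Finset.sum_congr rfl fun d _ => ?_
          rw [map_mul, map_prod]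
          congr 1
          · simp
          · refine Finset.prod_congr rfl fun i _ => ?_
            rw [map_pow]
            congr 1
            by_cases hi : i = 0
            · subst hi
              simp [castV]
            · simp [castV, hi, hx]
        have h3 := congrArg (Polynomial.eval (y 0)) hp
        rw [Polynomial.eval_zero, ← Polynomial.coe_evalRingHom, MvPolynomial.aeval_def,
          MvPolynomial.eval₂_eq', map_sum] at h3
        rw [MvPolynomial.eval_eq', ← mul_zero (y 1), ← h3]
        congr 1
        refine Finset.sum_congr rfl fun d _ => ?_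
        rw [map_mul, map_prod]
        congr 1
        · simp
        · refine Finset.prod_congr rfl fun i _ => ?_
          rw [map_pow]
          congr 1
          by_cases hi : i = 0
          · subst hi
            simp
          · simp [hi]
  rcases mul_eq_zero.1 hX with h | h
  · exact absurd h (MvPolynomial.X_ne_zero _)
  · exact h

end Pool.Agent.UG
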